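import Pool.Agent.H85.KP.Final
import Pool.Agent.H25.KP.U2

/-!
# The Koebe radius of the univalent polynomials of degree `N` with real coefficients

For every `N ≥ 1` the Koebe radius of the class of univalent polynomials
`z + a₂ z² + ⋯ + a_N z^N` (`a_N ≠ 0`, real coefficients) is `1/(4 cos²(π/(N+2)))`.
-/

namespace Pool.Agent.Results.MP_6cc408_an.KoebeRadius

open Pool.Agent.H85.KP Polynomial

/-- **Main theorem** (affirmative answer to Q1).  For every `N ≥ 1`: the infimum `R_N` of the Koebe
radii of the admissible polynomials of degree `N` is `1/(4 cos²(π/(N+2)))`, the infimum is attained,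
and the open disc of that radius about `0` is contained in the image of the unit disc under every
admissible polynomial of degree `N`. -/
theorem result (N : ℕ) (hN : 1 ≤ N) :
    koebeRadiusClass N = 1 / (4 * Real.cos (Real.pi / ((N : ℝ) + 2)) ^ 2) ∧
    IsLeast {r : ℝ | ∃ p : ℝ[X], Adm N p ∧ r = koebeRadius p}
      (1 / (4 * Real.cos (Real.pi / ((N : ℝ) + 2)) ^ 2)) ∧
    ∀ p : ℝ[X], Adm N p →
      Metric.ball (0 : ℂ) (1 / (4 * Real.cos (Real.pi / ((N : ℝ) + 2)) ^ 2)) ⊆
        ev p '' Metric.ball 0 1 :=
  main_of_U2' Pool.Agent.H25.KP.targetU2 N hN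

end Pool.Agent.Results.MP_6cc408_an.KoebeRadius
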